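import Pool.Agent.Q7.KR.Est

open Complex Metric Set Filter Topology
open Pool.Agent.Q7.KR

namespace Pool.Agent.Results.MP_3c459d_an.BoundedCompleteDomain

/-- **Disproof of Q1.** There are a bounded complete pseudoconvex Reinhardt domain `D ⊆ ℂ³`, a
boundary point `ζ₀` with all coordinates nonzero and a sequence `z_m ∈ D` with `z_m → ζ₀` such that
`k_D(z₀, z_m) + (1/2) log d_D(z_m) → -∞` for every `z₀ ∈ D`. -/
theorem result : ∃ (D : Set (Cn 3)) (ζ₀ : Cn 3) (z : ℕ → Cn 3),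
    IsReinhardtDomain D ∧ IsPseudoconvex D ∧ IsHolConvex D ∧ Bornology.IsBounded D ∧
    (∀ x ∈ D, ∀ y : Cn 3, (∀ i, ‖y i‖ ≤ ‖x i‖) → y ∈ D) ∧
    ζ₀ ∈ frontier D ∧ (∀ i, ζ₀ i ≠ 0) ∧
    (∀ m, z m ∈ D) ∧ Tendsto z atTop (𝓝 ζ₀) ∧
    ∀ z₀ ∈ D, Tendsto
      (fun m => kobayashi D z₀ (z m) + 1 / 2 * Real.log (infDist (z m) (frontier D)))
      atTop atBot := by
  refine ⟨Dom, WithLp.toLp 2 ![1, 1, 1], zs, reinhardt_dom, pseudoconvex_dom, holConvex_dom,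
    isBounded_dom, fun x hx y hy => dom_mono hy hx, zeta_frontier, fun i => ?_, zs_mem, zs_tendsto,
    fun z₀ hz₀ => main_tendsto hz₀⟩
  fin_cases i <;> exact one_ne_zero

end Pool.Agent.Results.MP_3c459d_an.BoundedCompleteDomain
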